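import Mathlib

/-!
Definitions and statements for the disproof of MP_0e6637_co (a strictly convex norm on a
15-dimensional space and an infinite set M such that every 2-colouring has a monochromatic
isometric copy of M).
-/

set_option autoImplicit false

open scoped BigOperators

namespace Pool.Agent.W557.NC

/-- The ambient space: three copies of `ℝ^(ℤ/5)`. -/
abbrev V : Type := Fin 3 → ZMod 5 → ℝ

/-- The quartic function used for strict convexity. -/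
def eta (v : V) : ℝ := ∑ c, ∑ b, v c b ^ 4

/-- Rotation of all three copies by `a`. -/
def rot (a : ZMod 5) : V →ₗ[ℝ] V where
  toFun v := fun c b => v c (b - a)
  map_add' _ _ := rfl
  map_smul' _ _ := rfl

/-- The vector `e_0 - 1/5 (1,...,1)`. -/
noncomputable def u0 (b : ZMod 5) : ℝ := (if b = 0 then 1 else 0) - 1 / 5

/-- The vector of `V` with frame coordinates `z = (U, T, W, F1, G1, P, H, G0)`. -/
noncomputable def emb (z : Fin 8 → ℝ) : V :=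
  ![fun b => z 0 * u0 b + z 2 * u0 (b - 1) + z 5 * u0 (b + 1),
    fun b => z 1 * u0 b + z 3 * u0 (b - 1) + z 6 * u0 (b + 1),
    fun b => z 7 * (if b = 0 then 1 else 0) + z 4 * (if b = 1 then 1 else 0)]

/-- `x_0 - (x_2 + x_3)/2`. -/
noncomputable def al0 (x : ZMod 5 → ℝ) : ℝ := x 0 - (x 2 + x 3) / 2
/-- `x_1 - (x_2 + x_3)/2`. -/
noncomputable def al1 (x : ZMod 5 → ℝ) : ℝ := x 1 - (x 2 + x 3) / 2
/-- `x_4 - (x_2 + x_3)/2`. -/
noncomputable def alm (x : ZMod 5 → ℝ) : ℝ := x 4 - (x 2 + x 3) / 2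

/-- The functional with coefficients `l` (the coefficients `l 3`, `l 5` are not used). -/
noncomputable def phi (l : Fin 8 → ℝ) (v : V) : ℝ :=
  l 0 * al0 (v 0) + l 1 * al0 (v 1) + l 2 * al1 (v 0) + l 6 * alm (v 1) + l 7 * v 2 0 + l 4 * v 2 1

/-- Coordinate form of the functional. -/
noncomputable def pair (l z : Fin 8 → ℝ) : ℝ :=
  l 0 * z 0 + l 1 * z 1 + l 2 * z 2 + l 6 * z 6 + l 7 * z 7 + l 4 * z 4

/-- The hierarchy of scales. -/
noncomputable def mu (k : ℕ) : ℝ := (1 / 2) ^ (20 * 10 ^ k)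

noncomputable def rho (k : ℕ) : ℝ := mu k ^ 2
noncomputable def tt (k : ℕ) : ℝ := mu k ^ 3
noncomputable def Bc (p q : ℕ) : ℝ := mu p * mu q ^ 4
noncomputable def Ac (p q : ℕ) : ℝ := mu p ^ 2 * mu q ^ 5
noncomputable def Ad (p q : ℕ) : ℝ := mu p ^ 3 * mu q ^ 6

/-- The base points. -/
noncomputable def Qc (i : ℕ) : Fin 8 → ℝ := ![rho i, rho i * tt i, 0, 0, 0, 0, 0, 0]

/-- The small perturbations. -/
noncomputable def Yc (i s : ℕ) : Fin 8 → ℝ :=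
  if s = i then 0
  else if i < s then
    ![-2 * tt i * Ac i s, Ac i s, rho s - 2 * tt s * Ad i s, rho s * tt s + Ad i s, Bc i s, 0, 0, 0]
  else
    ![-2 * tt i * Ad s i, Ad s i, 0, 0, 0, -2 * tt s * Ac s i, Ac s i, Bc s i]

noncomputable def Zc (i s : ℕ) : Fin 8 → ℝ := Qc i + Yc i s

/-- The distances. -/
noncomputable def dd (i j : ℕ) : ℝ :=
  (rho i - rho j) + (rho i * tt i - rho j * tt j) ^ 2 / (2 * (rho i - rho j))

/-- The norm construction. -/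
def S_norm : Prop :=
  ∀ (ι : Type) [Nonempty ι] (X : ι → V) (ν : ι → V →ₗ[ℝ] ℝ) (C K : ℝ), 0 < C →
    (∀ x, ν x (X x) = 1) →
    (∀ x y, ν x (X y) + C * eta (X y - X x) ≤ 1) →
    (∀ x, C * eta (X x) ≤ 1 / 2) →
    (∀ x v, |ν x v| ≤ K * ∑ c, ∑ b, |v c b|) →
    (∀ x c b, |X x c b| ≤ K) →
    (∀ x, ∃ y, X y = - X x ∧ ν y = - ν x) →
    ∃ (E : Type) (_ : NormedAddCommGroup E) (_ : NormedSpace ℝ E)
      (_ : FiniteDimensional ℝ E) (_ : StrictConvexSpace ℝ E) (e : V ≃ₗ[ℝ] E),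
      ∀ x, ‖e (X x)‖ = 1

/-- The Ramsey part. -/
def S_ramsey : Prop :=
  ∀ (E : Type) [NormedAddCommGroup E] (Z : ZMod 5 → ℕ → ℕ → E) (d : ℕ → ℕ → ℝ),
    (∀ i j, i < j → 0 < d i j) →
    (∀ a i j s s', i < j → ‖Z a i s - Z a j s'‖ = d i j) →
    (∀ a i k, i < k → Z a i k = Z a i i + Z (a + 1) k i) →
    (∀ i, ∑ a, Z a i i = 0) →
    ∃ M : Set E, M.Infinite ∧ ∀ c : E → Fin 2, ∃ f : E → E,
      (∀ x ∈ M, ∀ y ∈ M, dist (f x) (f y) = dist x y) ∧ ∀ x ∈ M, ∀ y ∈ M, c (f x) = c (f y)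

/-- Size of the normalised difference vectors. -/
def S_bd : Prop :=
  ∀ i j s s' : ℕ, i < j → 0 < dd i j ∧
    |(Zc i s - Zc j s') 0 - dd i j| ≤ dd i j / 1000 ∧
    ∀ c : Fin 8, c ≠ 0 → |(Zc i s - Zc j s') c| ≤ dd i j / 1000

/-- Strictly convex position in one frame. -/
def S_same : Prop :=
  ∀ i j s s' : ℕ, i < j → ∃ l : Fin 8 → ℝ, |l 0 - 1| ≤ 1 / 1000 ∧
    (∀ c : Fin 8, c ≠ 0 → |l c| ≤ 1 / 1000) ∧
    pair l (Zc i s - Zc j s') = dd i j ∧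
    ∀ i2 j2 s2 s2' : ℕ, i2 < j2 →
      pair l (Zc i2 s2 - Zc j2 s2') + dd i2 j2 / 1000 *
        ∑ c : Fin 8, ((Zc i2 s2 - Zc j2 s2') c / dd i2 j2 - (Zc i s - Zc j s') c / dd i j) ^ 4
          ≤ dd i2 j2

/-- Collecting everything: the hypotheses of `S_norm` are satisfied by the rotated vectors. -/
def S_frame : Prop :=
  ∃ (ι : Type) (_ : Nonempty ι) (X : ι → V) (ν : ι → V →ₗ[ℝ] ℝ) (C K : ℝ), 0 < C ∧
    (∀ x, ν x (X x) = 1) ∧
    (∀ x y, ν x (X y) + C * eta (X y - X x) ≤ 1) ∧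
    (∀ x, C * eta (X x) ≤ 1 / 2) ∧
    (∀ x v, |ν x v| ≤ K * ∑ c, ∑ b, |v c b|) ∧
    (∀ x c b, |X x c b| ≤ K) ∧
    (∀ x, ∃ y, X y = - X x ∧ ν y = - ν x) ∧
    ∀ a i j s s', i < j → ∃ x, X x = (1 / dd i j) • rot a (emb (Zc i s - Zc j s'))

/-- Transversal part of the functional on `Yc p z` for `p < z` (outgoing elements). -/
noncomputable def TI (ω m : ℝ) (p z : ℕ) : ℝ := ω * (rho z - 2 * tt z * Ad p z) + m * Bc p z

/-- Transversal part of the functional on `Yc q p` for `p < q` (incoming elements). -/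
noncomputable def TII (φ γ : ℝ) (p q : ℕ) : ℝ := φ * Ac p q + γ * Bc p q

/-- Selection of outgoing elements. -/
def S_selI : Prop :=
  ∀ (i j s s' : ℕ) (c c' : ℝ), i < j → 9 / 10 * tt i ≤ c → c ≤ 11 / 10 * tt i →
    9 / 10 * tt i ≤ c' → c' ≤ 11 / 10 * tt i →
    ∃ ω m : ℝ, |ω| ≤ tt i * mu i ∧ |m| ≤ tt i * mu i ∧
      (i < s → tt i / 4 * Ac i s ≤ -c * Ac i s + TI ω m i s ∧
        ∀ z, i < z → z ≠ s → tt i / 4 * (Ac i s + Ac i z) ≤
          (-c * Ac i s + TI ω m i s) - (-c * Ac i z + TI ω m i z)) ∧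
      (¬ i < s → ∀ z, i < z → -c * Ac i z + TI ω m i z ≤ - (tt i / 4 * Ac i z)) ∧
      (j < s' → c' * Ac j s' + TI ω m j s' ≤ - (tt i / 4 * Ac j s') ∧
        ∀ z, j < z → z ≠ s' → tt i / 4 * (Ac j s' + Ac j z) ≤
          (c' * Ac j z + TI ω m j z) - (c' * Ac j s' + TI ω m j s')) ∧
      (¬ j < s' → ∀ z, j < z → tt i / 4 * Ac j z ≤ c' * Ac j z + TI ω m j z)

/-- Selection of incoming elements. -/
def S_selII : Prop :=
  ∀ (i j s s' : ℕ) (c c' : ℝ), i < j → 9 / 10 * tt i ≤ c → c ≤ 11 / 10 * tt i →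
    9 / 10 * tt i ≤ c' → c' ≤ 11 / 10 * tt i →
    ∃ φ γ : ℝ, 0 ≤ φ ∧ φ ≤ 3 * tt i * mu i ∧ γ ≤ 0 ∧ - (tt i * mu j) ≤ γ ∧
      (s < i → tt i / 4 * Ad s i ≤ -c * Ad s i + TII φ γ s i ∧
        ∀ p, p < i → p ≠ s → tt i / 4 * (Ad s i + Ad p i) ≤
          (-c * Ad s i + TII φ γ s i) - (-c * Ad p i + TII φ γ p i)) ∧
      (¬ s < i → ∀ p, p < i → -c * Ad p i + TII φ γ p i ≤ - (tt i / 4 * Ad p i)) ∧
      (s' < j → c' * Ad s' j + TII φ γ s' j ≤ - (tt i / 4 * Ad s' j) ∧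
        ∀ p, p < j → p ≠ s' → tt i / 4 * (Ad s' j + Ad p j) ≤
          (c' * Ad p j + TII φ γ p j) - (c' * Ad s' j + TII φ γ s' j)) ∧
      (¬ s' < j → ∀ p, p < j → tt i / 4 * Ad p j ≤ c' * Ad p j + TII φ γ p j)

lemma mu_pos (k : ℕ) : 0 < mu k := by unfold mu; positivity

lemma mu_le (k : ℕ) : mu k ≤ (1 / 2) ^ 20 := by
  unfold mu
  apply pow_le_pow_of_le_one (by norm_num) (by norm_num)
  have : 1 ≤ 10 ^ k := Nat.one_le_pow _ _ (by norm_num)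
  omega

lemma mu_lt {a b : ℕ} (h : a < b) : mu b ≤ mu a ^ 10 := by
  unfold mu
  rw [← pow_mul]
  apply pow_le_pow_of_le_one (by norm_num) (by norm_num)
  have : 10 ^ (a + 1) ≤ 10 ^ b := Nat.pow_le_pow_right (by norm_num) h
  calc 20 * 10 ^ a * 10 = 20 * 10 ^ (a + 1) := by ring
    _ ≤ 20 * 10 ^ b := by omega

end Pool.Agent.W557.NC
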